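import Mathlib

/-!
Automorphisms near the identity of a real Lie algebra all of whose derivations are inner.
-/

namespace Pool.Agent.MP_2b113a_an.H88

open NormedSpace Filter Topology

section Exp

variable {𝔸 : Type} [NormedRing 𝔸] [NormedAlgebra ℝ 𝔸] [CompleteSpace 𝔸]

theorem exp_add' {x y : 𝔸} (h : Commute x y) : exp (x + y) = exp x * exp y := by
  let _ : NormedAlgebra ℚ 𝔸 := NormedAlgebra.restrictScalars ℚ ℝ 𝔸
  exact exp_add_of_commute h

theorem exp_cont' : Continuous (exp : 𝔸 → 𝔸) := by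
  let _ : NormedAlgebra ℚ 𝔸 := NormedAlgebra.restrictScalars ℚ ℝ 𝔸
  exact exp_continuous

theorem exp_conj'' (y : 𝔸ˣ) (x : 𝔸) : exp (y * x * ↑y⁻¹ : 𝔸) = y * exp x * ↑y⁻¹ := by
  let _ : NormedAlgebra ℚ 𝔸 := NormedAlgebra.restrictScalars ℚ ℝ 𝔸
  exact exp_units_conj y x

theorem exp_mul_neg (x : 𝔸) : exp x * exp (-x) = 1 := by
  rw [← exp_add' (Commute.refl x).neg_right, add_neg_cancel, exp_zero]

theorem exp_neg_mul (x : 𝔸) : exp (-x) * exp x = 1 := by
  rw [← exp_add' (Commute.refl x).neg_left, neg_add_cancel, exp_zero]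

end Exp

variable {V : Type} [NormedAddCommGroup V] [NormedSpace ℝ V] [FiniteDimensional ℝ V]

/-- Maps that respect the bracket. -/
def IsAu (br : V →L[ℝ] V →L[ℝ] V) (A : V →L[ℝ] V) : Prop :=
  ∀ x y, A (br x y) = br (A x) (A y)

/-- Derivations. -/
def IsDe (br : V →L[ℝ] V →L[ℝ] V) (D : V →L[ℝ] V) : Prop :=
  ∀ x y, D (br x y) = br (D x) y + br x (D y)

variable {br : V →L[ℝ] V →L[ℝ] V}

theorem isAu_exp {D : V →L[ℝ] V} (hD : IsDe br D) : IsAu br (exp D) := by
  intro x y
  have hd : ∀ t : ℝ, HasDerivAt (fun t : ℝ =>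
      exp (t • (-D)) (br (exp (t • D) x) (exp (t • D) y))) 0 t := by
    intro t
    have a := hasDerivAt_exp_smul_const' (𝕂 := ℝ) D t
    have ax := a.clm_apply (hasDerivAt_const t x)
    have ay := a.clm_apply (hasDerivAt_const t y)
    have bx := br.hasFDerivAt.comp_hasDerivAt t ax
    have m := hasDerivAt_exp_smul_const (𝕂 := ℝ) (-D) t
    refine (m.clm_apply (bx.clm_apply ay)).congr_deriv ?_
    simp only [map_zero, add_zero, mul_apply_eq_comp, Function.comp_apply,
      neg_apply]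
    rw [hD, ← map_add, neg_add_cancel, map_zero]
  have h := is_const_of_deriv_eq_zero (fun t => (hd t).differentiableAt)
    (fun t => (hd t).deriv) 1 0
  simp only [one_smul, zero_smul, exp_zero, one_apply_eq_self] at h
  rw [← h, ← mul_apply_eq_comp, exp_mul_neg, one_apply_eq_self]

/-- Products of exponentials. -/
noncomputable def prE (br : V →L[ℝ] V →L[ℝ] V) (ps : List (V →L[ℝ] V)) (x : V) : V →L[ℝ] V :=
  (ps.map fun p => exp (br (p x))).prod

omit [FiniteDimensional ℝ V] in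
theorem prE_cons (p : V →L[ℝ] V) (ps : List (V →L[ℝ] V)) (x : V) :
    prE br (p :: ps) x = exp (br (p x)) * prE br ps x := by
  simp [prE]

omit [FiniteDimensional ℝ V] in
theorem prE_zero (ps : List (V →L[ℝ] V)) : prE br ps 0 = 1 := by
  induction ps with
  | nil => rfl
  | cons p ps ih => rw [prE_cons, ih, map_zero, map_zero, exp_zero, one_mul]

theorem prE_au (hj : ∀ x, IsDe br (br x)) (ps : List (V →L[ℝ] V)) (x : V) :
    IsAu br (prE br ps x) ∧ Function.Injective (prE br ps x) := by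
  induction ps with
  | nil => exact ⟨fun _ _ => rfl, fun _ _ h => h⟩
  | cons p ps ih =>
    rw [prE_cons]
    refine ⟨fun u v => ?_, ?_⟩
    · simp only [mul_apply_eq_comp]
      rw [ih.1, isAu_exp (hj _)]
    · have : Function.Injective (exp (br (p x)) : V →L[ℝ] V) := by
        intro u v h
        have h2 : (exp (-br (p x)) * exp (br (p x)) : V →L[ℝ] V) u =
            (exp (-br (p x)) * exp (br (p x)) : V →L[ℝ] V) v :=
          congrArg (exp (-br (p x)) : V →L[ℝ] V) h
        rwa [exp_neg_mul] at h2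
      exact this.comp ih.2

theorem prE_deriv (ps : List (V →L[ℝ] V)) :
    HasStrictFDerivAt (prE br ps) (br ∘L ps.sum) 0 := by
  induction ps with
  | nil =>
    have : prE br [] = fun _ => 1 := rfl
    rw [this]
    simpa using hasStrictFDerivAt_const (𝕜 := ℝ) (1 : V →L[ℝ] V) (0 : V)
  | cons p ps ih =>
    have e0 : HasStrictFDerivAt exp (1 : (V →L[ℝ] V) →L[ℝ] (V →L[ℝ] V)) ((br ∘L p) 0) := by
      rw [map_zero]
      exact hasStrictFDerivAt_exp_zero
    have e1 := (e0.comp 0 (br ∘L p).hasStrictFDerivAt).mul' ih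
    have e2 : prE br (p :: ps) = (fun x => exp ((br ∘L p) x)) * prE br ps :=
      funext fun x => prE_cons p ps x
    rw [e2]
    refine e1.congr_fderiv ?_
    ext1 x
    show exp (br (p 0)) * br (ps.sum x) + br (p x) * prE br ps 0 = br ((p :: ps).sum x)
    rw [prE_zero, map_zero, map_zero, exp_zero, one_mul, mul_one, List.sum_cons, add_apply,
      map_add, add_comm]

/-- The defect of being a derivation. -/
noncomputable def dfc0 (br : V →L[ℝ] V →L[ℝ] V) (w : V →L[ℝ] V) : V →L[ℝ] V →L[ℝ] V :=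
  (ContinuousLinearMap.compL ℝ V V V w).comp br - br.comp w -
    ((ContinuousLinearMap.compL ℝ V V V).flip w).comp br

omit [FiniteDimensional ℝ V] in
theorem dfc0_apply (w : V →L[ℝ] V) (x y : V) :
    dfc0 br w x y = w (br x y) - br (w x) y - br x (w y) := rfl

/-- The defect of being a derivation, as a linear map. -/
noncomputable def dfc (br : V →L[ℝ] V →L[ℝ] V) : (V →L[ℝ] V) →ₗ[ℝ] (V →L[ℝ] V →L[ℝ] V) where
  toFun w := dfc0 br w
  map_add' w w' := by
    ext x y
    simp only [add_apply, dfc0_apply, map_add]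
    abel
  map_smul' c w := by
    ext x y
    simp only [smul_apply, dfc0_apply, map_smul, smul_sub, RingHom.id_apply]

omit [FiniteDimensional ℝ V] in
theorem dfc_apply (w : V →L[ℝ] V) (x y : V) :
    dfc br w x y = w (br x y) - br (w x) y - br x (w y) := rfl

theorem small_eq_zero (hin : ∀ D, IsDe br D → ∃ z, D = br z) (lam : (V →L[ℝ] V) →L[ℝ] V)
    (hl : ∀ x, lam (br x) = x) :
    ∃ ε : ℝ, 0 < ε ∧ ∀ w : V →L[ℝ] V, lam w = 0 → ‖w‖ < ε → IsAu br (1 + w) → w = 0 := by
  obtain ⟨K, hK, hA⟩ := LinearMap.exists_antilipschitzWith (𝕜 := ℝ) (E := V →L[ℝ] V)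
      (F := V × (V →L[ℝ] V →L[ℝ] V)) (lam.toLinearMap.prod (dfc br)) (by
    rw [LinearMap.ker_eq_bot']
    intro w hw
    have h1 : lam w = 0 := congrArg Prod.fst hw
    have h2 : dfc br w = 0 := congrArg Prod.snd hw
    obtain ⟨z, rfl⟩ := hin w fun x y => by
      have := dfc_apply (br := br) w x y
      rw [h2] at this
      simp only [zero_apply] at this
      rw [← sub_eq_zero, ← sub_sub, ← this]
    rw [hl] at h1
    rw [h1, map_zero])
  have hK' : (0 : ℝ) < K := hK
  refine ⟨1 / (K * (‖br‖ + 1)), by positivity, fun w h1 h2 h3 => ?_⟩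
  have e1 : ‖dfc br w‖ ≤ ‖br‖ * ‖w‖ * ‖w‖ := by
    refine ContinuousLinearMap.opNorm_le_bound₂ _ (by positivity) fun x y => ?_
    have e : dfc br w x y = br (w x) (w y) := by
      have := h3 x y
      simp only [add_apply, one_apply_eq_self, map_add] at this
      rw [dfc_apply]
      linear_combination (norm := abel) this
    rw [e]
    calc ‖br (w x) (w y)‖ ≤ ‖br‖ * ‖w x‖ * ‖w y‖ := br.le_opNorm₂ _ _
      _ ≤ ‖br‖ * (‖w‖ * ‖x‖) * (‖w‖ * ‖y‖) := by
        gcongr
        exacts [w.le_opNorm x, w.le_opNorm y]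
      _ = _ := by ring
  have e2 := ZeroHomClass.bound_of_antilipschitz _ hA w
  have e3 : ‖(lam.toLinearMap.prod (dfc br)) w‖ = ‖dfc br w‖ := by
    show ‖(lam w, dfc br w)‖ = _
    rw [h1, Prod.norm_mk, norm_zero]
    exact max_eq_right (ContinuousLinearMap.opNorm_nonneg _)
  rw [e3] at e2
  rw [lt_div_iff₀ (by positivity)] at h2
  by_contra h0
  have hw : 0 < ‖w‖ := norm_pos_iff.mpr h0
  have e4 : ‖w‖ ≤ K * (‖br‖ * ‖w‖ * ‖w‖) := e2.trans (by gcongr)
  have e5 : 1 ≤ K * (‖br‖ * ‖w‖) := by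
    by_contra h5
    push Not at h5
    nlinarith
  nlinarith [norm_nonneg br]

theorem exists_chart (hj : ∀ x, IsDe br (br x)) (hinj : Function.Injective br)
    (hin : ∀ D, IsDe br D → ∃ z, D = br z) (ps : List (V →L[ℝ] V)) (hs : ps.sum = 1) :
    ∃ (c : (V →L[ℝ] V) → V) (U : Set (V →L[ℝ] V)), IsOpen U ∧ 1 ∈ U ∧ ContinuousOn c U ∧
      c 1 = 0 ∧ (∀ A ∈ U, IsAu br A → prE br ps (c A) = A) ∧
      (∀ᶠ x in 𝓝 (0 : V), c (prE br ps x) = x) ∧
      ∃ lam : (V →L[ℝ] V) →L[ℝ] V, (∀ x, lam (br x) = x) ∧ HasFDerivAt c lam 1 := by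
  obtain ⟨l0, hl0⟩ := br.toLinearMap.exists_leftInverse_of_injective
    (LinearMap.ker_eq_bot.mpr hinj)
  set lam : (V →L[ℝ] V) →L[ℝ] V := LinearMap.toContinuousLinearMap l0 with hlam
  have hl : ∀ x, lam (br x) = x := fun x => LinearMap.congr_fun hl0 x
  obtain ⟨ε, hε, hsm⟩ := small_eq_zero hin lam hl
  set Φ : (V →L[ℝ] V) → (V →L[ℝ] V) := fun T => prE br ps (lam T) * (1 + (T - br (lam T)))
    with hΦ
  have hΦ0 : Φ 0 = 1 := by simp [hΦ, prE_zero]
  have hd : HasStrictFDerivAt Φ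
      (ContinuousLinearEquiv.refl ℝ (V →L[ℝ] V) : (V →L[ℝ] V) →L[ℝ] (V →L[ℝ] V)) 0 := by
    have a0 : HasStrictFDerivAt (prE br ps) (br ∘L ps.sum) (lam 0) := by
      rw [map_zero]
      exact prE_deriv ps
    have a1 := a0.comp 0 lam.hasStrictFDerivAt
    have a2 := ((ContinuousLinearMap.id ℝ (V →L[ℝ] V) - br ∘L lam).hasStrictFDerivAt
      (x := 0)).const_add 1
    refine (a1.mul' a2).congr_fderiv ?_
    ext1 T
    show prE br ps (lam 0) * (T - br (lam T)) + br (ps.sum (lam T)) * (1 + (0 - br (lam 0))) = T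
    rw [map_zero, map_zero, prE_zero, hs, one_mul, sub_zero, add_zero, mul_one, one_apply_eq_self,
      sub_add_cancel]
  set e := hd.toOpenPartialHomeomorph Φ with he
  have h1t : (1 : V →L[ℝ] V) ∈ e.target := hΦ0 ▸ hd.image_mem_toOpenPartialHomeomorph_target
  have hΨ1 : e.symm 1 = 0 := by
    rw [← hΦ0]
    exact hd.localInverse_apply_image
  have hcw : Continuous fun T : V →L[ℝ] V => ‖T - br (lam T)‖ := by fun_prop
  refine ⟨fun A => lam (e.symm A), e.target ∩ e.symm ⁻¹' {T | ‖T - br (lam T)‖ < ε},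
    e.continuousOn_symm.isOpen_inter_preimage e.open_target (isOpen_lt hcw continuous_const),
    ⟨h1t, by simpa [hΨ1] using hε⟩,
    lam.continuous.comp_continuousOn (e.continuousOn_symm.mono Set.inter_subset_left),
    by simp [hΨ1], fun A hA hau => ?_, ?_, lam, hl, ?_⟩
  · have r : Φ (e.symm A) = A := e.right_inv hA.1
    set T := e.symm A
    obtain ⟨b1, b2⟩ := prE_au hj ps (lam T)
    have hw : T - br (lam T) = 0 := by
      refine hsm _ (by rw [map_sub, hl, sub_self]) hA.2 fun x y => b2 ?_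
      have r' : ∀ v, prE br ps (lam T) ((1 + (T - br (lam T)) : V →L[ℝ] V) v) = A v :=
        fun v => DFunLike.congr_fun r v
      rw [b1, r', r', r']
      exact hau x y
    have r' : prE br ps (lam T) * (1 + (T - br (lam T))) = A := r
    rwa [hw, add_zero, mul_one] at r'
  · have t : Tendsto br (𝓝 0) (𝓝 0) := by simpa using br.continuous.tendsto 0
    filter_upwards [t.eventually hd.eventually_left_inverse] with x hx
    have e1 : Φ (br x) = prE br ps x := by simp [hΦ, hl]
    have e2 : e.symm (Φ (br x)) = br x := hx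
    rw [← e1, e2, hl]
  · have a := hd.to_localInverse.hasFDerivAt
    rw [hΦ0] at a
    exact lam.hasFDerivAt.comp 1 a

end Pool.Agent.MP_2b113a_an.H88
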