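import Pool.Agent.MP_2b113a_an.H88.Real
import Pool.Agent.MP_2b113a_an.H88.Chart

/-!
Module LG0: a connected covering group of the automorphism group is a Lie group in the sense of
the structure `LG`.
-/

namespace Pool.Agent.MP_2b113a_an.H88

open Pool.Agent.MP_2b113a_an.H33 NormedSpace Filter Topology
open scoped Matrix

variable {n : ℕ} {L : Type} [LieRing L] [LieAlgebra ℚ L] (b : Module.Basis (Fin n) ℚ L)

/-- Matrices as continuous linear maps. -/
noncomputable def toC (n : ℕ) :
    Matrix (Fin n) (Fin n) ℝ ≃ₐ[ℝ] ((Fin n → ℝ) →L[ℝ] (Fin n → ℝ)) :=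
  Matrix.toLinAlgEquiv'.trans (Module.End.toContinuousLinearMap (𝕜 := ℝ) (Fin n → ℝ))

theorem toC_apply (M : Matrix (Fin n) (Fin n) ℝ) (x : Fin n → ℝ) : toC n M x = M *ᵥ x := rfl

theorem toC_cont : Continuous (toC n) :=
  (toC n).toLinearEquiv.toLinearMap.continuous_of_finiteDimensional

theorem toC_symm_cont : Continuous (toC n).symm :=
  (toC n).symm.toLinearEquiv.toLinearMap.continuous_of_finiteDimensional

/-- Automorphisms as continuous linear maps. -/
noncomputable def aut : Aut b →* ((Fin n → ℝ) →L[ℝ] (Fin n → ℝ)) :=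
  (toC n).toRingEquiv.toMonoidHom.comp ((Units.coeHom _).comp (Aut b).subtype)

theorem aut_eq (A : Aut b) : aut b A = toC n A.1.1 := rfl

theorem aut_cont : Continuous (aut b) :=
  toC_cont.comp (Units.continuous_val.comp continuous_subtype_val)

theorem aut_inj : Function.Injective (aut b) := fun _ _ h =>
  Subtype.ext (Units.ext ((toC n).injective h))

theorem aut_au (A : Aut b) : IsAu (brr b) (aut b A) := by
  intro x y
  simp only [aut_eq, toC_apply, brr_apply]
  exact A.2 x y

theorem brr_de (x : Fin n → ℝ) : IsDe (brr b) (brr b x) := brr_jacobi b x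

theorem brr_self (x : Fin n → ℝ) : brr b x x = 0 := by
  rw [brr_apply', lie_self, map_zero]

/-- The exponential of an inner derivation. -/
noncomputable def ee (x : Fin n → ℝ) : Aut b :=
  ⟨⟨(toC n).symm (exp (brr b x)), (toC n).symm (exp (-brr b x)),
    by rw [← map_mul, exp_mul_neg, map_one], by rw [← map_mul, exp_neg_mul, map_one]⟩,
    fun u v => by
      have h := isAu_exp (brr_de b x) u v
      simp only [brr_apply] at h
      simp only [← toC_apply, AlgEquiv.apply_symm_apply]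
      exact h⟩

theorem aut_ee (x : Fin n → ℝ) : aut b (ee b x) = exp (brr b x) := (toC n).apply_symm_apply _

theorem ee_cont : Continuous (ee b) := by
  refine Continuous.subtype_mk (Units.continuous_iff.mpr ⟨?_, ?_⟩) _
  · exact toC_symm_cont.comp (exp_cont'.comp (brr b).continuous)
  · exact toC_symm_cont.comp (exp_cont'.comp (brr b).continuous.neg)

section Group

variable {b} {G : Type} [Group G] [TopologicalSpace G] [IsTopologicalGroup G] {Ad : G →* Aut b}
  {E : (Fin n → ℝ) → G}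

theorem lift_add (hc : IsCoveringMap Ad) (hE : Continuous E) (h0 : E 0 = 1)
    (hA : ∀ x, Ad (E x) = ee b x) (x y : Fin n → ℝ) (h : brr b x y = 0) :
    E (x + y) = E x * E y := by
  have hcm : Commute (brr b x) (brr b y) := by
    ext1 z
    have := brr_jacobi b x y z
    rw [h, map_zero, zero_apply, zero_add] at this
    exact this
  have key := hc.eq_of_comp_eq (g₁ := fun t : ℝ => E (t • (x + y)))
    (g₂ := fun t : ℝ => E (t • x) * E (t • y)) (by fun_prop) (by fun_prop)
    (funext fun t => aut_inj b (by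
      simp only [Function.comp_apply, map_mul, hA, aut_ee, smul_add, map_add, map_smul]
      exact exp_add' ((hcm.smul_left t).smul_right t))) 0 (by simp [h0])
  simpa using congrFun key 1

theorem lift_conj (hc : IsCoveringMap Ad) (hE : Continuous E) (h0 : E 0 = 1)
    (hA : ∀ x, Ad (E x) = ee b x) (g : G) (x : Fin n → ℝ) :
    g * E x * g⁻¹ = E (aut b (Ad g) x) := by
  have key := hc.eq_of_comp_eq (g₁ := fun x => g * E x * g⁻¹)
    (g₂ := fun x => E (aut b (Ad g) x)) (by fun_prop) (hE.comp (aut b (Ad g)).continuous)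
    (funext fun x => aut_inj b (by
      simp only [Function.comp_apply, map_mul, hA, aut_ee]
      have e := exp_conj'' (((aut b).comp Ad).toHomUnits g) (brr b x)
      have e1 : ((((aut b).comp Ad).toHomUnits g : _) : (Fin n → ℝ) →L[ℝ] (Fin n → ℝ)) =
        aut b (Ad g) := rfl
      have e2 : (((((aut b).comp Ad).toHomUnits g)⁻¹ : _) : (Fin n → ℝ) →L[ℝ] (Fin n → ℝ)) =
        aut b (Ad g⁻¹) := rfl
      rw [e1, e2] at e
      rw [← e]
      congr 1
      ext1 y
      have e3 : aut b (Ad g) (aut b (Ad g⁻¹) y) = y := by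
        rw [← mul_apply_eq_comp, ← map_mul, ← map_mul, mul_inv_cancel, map_one, map_one,
          one_apply_eq_self]
      rw [mul_apply_eq_comp, mul_apply_eq_comp, aut_au, e3])) 0 (by simp [h0])
  exact congrFun key x

theorem lift_pow (hc : IsCoveringMap Ad) (hE : Continuous E) (h0 : E 0 = 1)
    (hA : ∀ x, Ad (E x) = ee b x) (x : Fin n → ℝ) (k : ℕ) : E x ^ k = E ((k : ℝ) • x) := by
  induction k with
  | zero => simp [h0]
  | succ k ih =>
    rw [pow_succ, ih, ← lift_add hc hE h0 hA _ _ (by rw [map_smul, smul_apply, brr_self, smul_zero]),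
      Nat.cast_succ, add_smul, one_smul]

omit [TopologicalSpace G] [IsTopologicalGroup G] in
theorem aut_prod (hA : ∀ x, Ad (E x) = ee b x) (ps : List ((Fin n → ℝ) →L[ℝ] (Fin n → ℝ)))
    (x : Fin n → ℝ) : aut b (Ad (ps.map fun p => E (p x)).prod) = prE (brr b) ps x := by
  induction ps with
  | nil => simp [prE]
  | cons p ps ih => rw [List.map_cons, List.prod_cons, map_mul, map_mul, ih, hA, aut_ee, prE_cons]

theorem lift_chart [LieAlgebra.IsSimple ℚ L] (hc : IsCoveringMap Ad) (hE : Continuous E)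
    (h0 : E 0 = 1) (hA : ∀ x, Ad (E x) = ee b x) (ps : List ((Fin n → ℝ) →L[ℝ] (Fin n → ℝ)))
    (hs : ps.sum = 1) :
    ∃ (N : Set G) (c : ((Fin n → ℝ) →L[ℝ] (Fin n → ℝ)) → Fin n → ℝ), IsOpen N ∧ 1 ∈ N ∧
      ContinuousOn (fun w => c (aut b (Ad w))) N ∧ c 1 = 0 ∧
      (∀ w ∈ N, (ps.map fun p => E (p (c (aut b (Ad w))))).prod = w) ∧
      (∀ᶠ x in 𝓝 (0 : Fin n → ℝ), c (prE (brr b) ps x) = x) ∧
      ∃ lam : ((Fin n → ℝ) →L[ℝ] (Fin n → ℝ)) →L[ℝ] Fin n → ℝ, (∀ x, lam (brr b x) = x) ∧
        HasFDerivAt c lam 1 := by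
  obtain ⟨c, U, hU, h1U, hcU, hc1, hpr, hev, hlam⟩ :=
    exists_chart (brr_de b) (brr_inj b) (brr_inner b) ps hs
  obtain ⟨O, hO, h1O, hinj⟩ := hc.isLocalHomeomorph.isLocallyInjective 1
  have hcont : Continuous fun w => aut b (Ad w) := (aut_cont b).comp hc.continuous
  have hP : Continuous fun x : Fin n → ℝ => (ps.map fun p => E (p x)).prod :=
    continuous_list_prod _ fun p _ => hE.comp p.continuous
  have hP0 : (ps.map fun p => E (p 0)).prod = 1 := by simp [h0]
  have hN0 : IsOpen (O ∩ (fun w => aut b (Ad w)) ⁻¹' U) := hO.inter (hU.preimage hcont)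
  have hc0 : ContinuousOn (fun w => c (aut b (Ad w))) (O ∩ (fun w => aut b (Ad w)) ⁻¹' U) :=
    hcU.comp hcont.continuousOn fun w hw => hw.2
  refine ⟨(O ∩ (fun w => aut b (Ad w)) ⁻¹' U) ∩
    ((fun x : Fin n → ℝ => (ps.map fun p => E (p x)).prod) ∘ fun w => c (aut b (Ad w))) ⁻¹' O, c,
    (hP.comp_continuousOn hc0).isOpen_inter_preimage hN0 hO, ⟨⟨h1O, by simpa using h1U⟩, ?_⟩,
    hc0.mono Set.inter_subset_left, hc1, fun w hw => ?_, hev, hlam⟩
  · show (ps.map fun p => E (p (c (aut b (Ad 1))))).prod ∈ O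
    rw [map_one, map_one, hc1, hP0]
    exact h1O
  · refine hinj hw.2 hw.1.1 (aut_inj b ?_)
    exact (aut_prod hA ps _).trans (hpr _ hw.1.2 (aut_au b _))

theorem lift_trotter [LieAlgebra.IsSimple ℚ L] (hc : IsCoveringMap Ad) (hE : Continuous E)
    (h0 : E 0 = 1) (hA : ∀ x, Ad (E x) = ee b x) (x y : Fin n → ℝ) :
    Tendsto (fun k : ℕ => (E ((k : ℝ)⁻¹ • x) * E ((k : ℝ)⁻¹ • y)) ^ k) atTop (𝓝 (E (x + y))) := by
  obtain ⟨N, c, hN, h1N, -, hc1, hpr, -, lam, hl, hd⟩ := lift_chart hc hE h0 hA [1] (by simp)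
  have d1 := (hasDerivAt_exp_smul_const (𝕂 := ℝ) (brr b x) 0).fun_mul
    (hasDerivAt_exp_smul_const (𝕂 := ℝ) (brr b y) 0)
  have hd' : HasFDerivAt c lam (exp ((0 : ℝ) • brr b x) * exp ((0 : ℝ) • brr b y)) := by
    rwa [zero_smul, zero_smul, exp_zero, one_mul]
  have d2 := (hd'.comp_hasDerivAt 0 d1).tendsto_slope_zero
  simp only [zero_smul, exp_zero, one_mul, mul_one, Function.comp_apply, zero_add, hc1, sub_zero,
    map_add, hl] at d2
  have t0 : Tendsto (fun k : ℕ => (k : ℝ)⁻¹) atTop (𝓝 0) := tendsto_inv_atTop_nhds_zero_nat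
  have t1 : Tendsto (fun k : ℕ => (k : ℝ)⁻¹) atTop (𝓝[≠] 0) := by
    refine tendsto_nhdsWithin_iff.mpr ⟨t0, ?_⟩
    filter_upwards [eventually_gt_atTop 0] with k hk
    exact inv_ne_zero (Nat.cast_ne_zero.mpr hk.ne')
  have t2 := (hE.tendsto _).comp (d2.comp t1)
  have t3 : Tendsto (fun k : ℕ => E ((k : ℝ)⁻¹ • x) * E ((k : ℝ)⁻¹ • y)) atTop (𝓝 1) := by
    have hcn : Continuous fun s : ℝ => E (s • x) * E (s • y) := by fun_prop
    have := (hcn.tendsto 0).comp t0
    simpa [h0, Function.comp_def] using this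
  refine t2.congr' ?_
  filter_upwards [t3.eventually (hN.mem_nhds h1N)] with k hk
  have e := hpr _ hk
  simp only [List.map_cons, List.map_nil, List.prod_cons, List.prod_nil, mul_one,
    one_apply_eq_self] at e
  rw [← e, lift_pow hc hE h0 hA]
  simp only [Function.comp_apply, inv_inv, map_mul, hA, aut_ee, map_smul]

end Group

theorem lg0 : LG0Stmt := by
  intro n L _ _ _ b G _ _ _ _ Ad hc
  obtain ⟨E, ⟨h0, hE⟩, -⟩ := hc.existsUnique_continuousMap_lifts ⟨ee b, ee_cont b⟩ 0 1
    (aut_inj b (by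
      show aut b (Ad 1) = aut b (ee b 0)
      rw [map_one, map_one, aut_ee, map_zero, exp_zero]))
  have hA : ∀ x, Ad (E x) = ee b x := fun x => congrFun hE x
  have hk : ∀ z, aut b (Ad z) = 1 → Ad z = 1 := fun z h => aut_inj b (by rw [h, map_one])
  refine ⟨{
    j := jj b
    j_smul := jj_smul b
    br := brr b
    ext := extt b
    ext_j := extt_jj b
    br_j := brr_jj b
    span_j := span_jj b
    indep := indep_jj b
    Ad := (aut b).comp Ad
    cont_Ad := (aut_cont b).comp hc.continuous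
    Ad_br := fun g => aut_au b (Ad g)
    E := E
    cont_E := E.continuous
    Ad_E := fun x => by
      show aut b (Ad (E x)) = _
      rw [hA, aut_ee]
    E_add := lift_add hc E.continuous h0 hA
    E_conj := lift_conj hc E.continuous h0 hA
    ker_comm := fun z g h => ?_
    ker_disc := ?_
    chart := fun ps hs => ?_
    trotter := lift_trotter hc E.continuous h0 hA }, ph_tmul b, fun _ _ => rfl⟩
  · have := hc.const_of_comp (g := fun g : G => g * z * g⁻¹) (by fun_prop)
      (fun a a' => by simp [hk z h]) g 1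
    simp only [one_mul, inv_one, mul_one] at this
    exact mul_inv_eq_iff_eq_mul.mp this
  · obtain ⟨O, hO, h1O, hinj⟩ := hc.isLocalHomeomorph.isLocallyInjective 1
    filter_upwards [hO.mem_nhds h1O] with z hz h
    exact hinj hz h1O (by rw [hk z h, map_one])
  · obtain ⟨N, c, a1, a2, a3, a4, a5, a6, -⟩ := lift_chart hc E.continuous h0 hA ps hs
    refine ⟨N, fun w => c (aut b (Ad w)), a1, a2, a3, by simp [a4], a5, ?_⟩
    filter_upwards [a6] with x hx
    rw [aut_prod hA, hx]

end Pool.Agent.MP_2b113a_an.H88
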