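import Mathlib

/-!
Operator identities for triples `A, B, H` with `A B - B A = H` and `H A - A H = 2 A`.
-/

namespace Pool.Agent.MP_2b113a_an.H88

open Polynomial

variable {V : Type} [AddCommGroup V] [Module ℚ V]

theorem jac {A B H : Module.End ℚ V} {e : ℚ} (h1 : A * B - B * A = H)
    (h2 : H * A - A * H = (2 * e) • A) (i : ℕ) :
    A ^ (i + 1) * B - B * A ^ (i + 1) = ((i : ℚ) + 1) • ((H - (e * i) • 1) * A ^ i) := by
  induction i with
  | zero => simp [h1]
  | succ i ih =>
    have h3 : A * H = H * A - (2 * e) • A := by rw [← h2]; abel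
    have h4 : A ^ (i + 1 + 1) * B - B * A ^ (i + 1 + 1) =
        A * (A ^ (i + 1) * B - B * A ^ (i + 1)) + (A * B - B * A) * A ^ (i + 1) := by
      rw [pow_succ' A (i + 1)]; noncomm_ring
    rw [h4, ih, h1, mul_smul_comm, ← mul_assoc, mul_sub, h3]
    simp only [sub_mul, smul_mul_assoc, mul_smul_comm, mul_one, one_mul, mul_assoc, ← pow_succ']
    push_cast
    module

/-- A commutator with a nilpotent operator that commutes with it is nilpotent. -/
theorem nil_comm {A B C : Module.End ℚ V} (hA : IsNilpotent A) (h1 : A * B - B * A = C)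
    (h2 : C * A = A * C) : IsNilpotent C := by
  obtain ⟨N, hN⟩ := hA
  have hc : Commute C A := h2
  have key : ∀ n, (∃ k, C ^ k * A ^ n = 0) → IsNilpotent C := by
    intro n
    induction n with
    | zero => rintro ⟨k, hk⟩; exact ⟨k, by simpa using hk⟩
    | succ n ih =>
      rintro ⟨k, hk⟩
      apply ih
      have hj := jac (e := 0) h1 (by simp [h2]) n
      have hk' : A ^ (n + 1) * C ^ k = 0 := by rw [← (hc.pow_pow k (n + 1)).eq]; exact hk
      refine ⟨k + 1 + k, ?_⟩
      have h5 : C ^ k * (A ^ (n + 1) * B - B * A ^ (n + 1)) * C ^ k = 0 := by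
        rw [mul_sub, sub_mul, ← mul_assoc, hk, mul_assoc (C ^ k), mul_assoc B, hk']
        simp
      rw [hj, mul_smul_comm, smul_mul_assoc, smul_eq_zero] at h5
      have h6 := h5.resolve_left (by positivity)
      simp only [zero_mul, zero_smul, sub_zero] at h6
      rw [← h6, pow_add, pow_succ, mul_assoc, (hc.pow_pow k n).eq]
      simp only [mul_assoc]
  exact key N ⟨0, by simp [hN]⟩

/-- The product of the linear factors. -/
noncomputable def pr (g : ℕ → ℚ) (k : ℕ) : ℚ[X] := ∏ j ∈ Finset.range k, (X - C (g j))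

theorem pr_succ (f : Module.End ℚ V) (g : ℕ → ℚ) (k : ℕ) (w : V) :
    aeval f (pr g (k + 1)) w = aeval f (pr g k) (f w - g k • w) := by
  simp [pr, Finset.prod_range_succ, Algebra.algebraMap_eq_smul_one]

theorem pr_succ' (f : Module.End ℚ V) (g : ℕ → ℚ) (k : ℕ) (w : V) :
    aeval f (pr g (k + 1)) w = f (aeval f (pr g k) w) - g k • aeval f (pr g k) w := by
  rw [pr, Finset.prod_range_succ, mul_comm]
  simp [pr, Algebra.algebraMap_eq_smul_one]

/-- A vector killed by a product of distinct linear factors is a sum of eigenvectors. -/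
theorem diagz (f : Module.End ℚ V) (U : Submodule ℚ V) (hU : ∀ w ∈ U, f w ∈ U) {g : ℕ → ℚ}
    (hg : Function.Injective g) (k : ℕ) : ∀ w ∈ U, aeval f (pr g k) w = 0 →
      w ∈ ⨆ j, ⨆ _ : j < k, U ⊓ f.eigenspace (g j) := by
  induction k with
  | zero => intro w _ h; simpa [pr] using h
  | succ k ih =>
    intro w hw h
    rw [pr_succ] at h
    have h1 := ih _ (U.sub_mem (hU w hw) (U.smul_mem _ hw)) h
    have h2 : (⨆ j, ⨆ _ : j < k, U ⊓ f.eigenspace (g j)) ≤
        (⨆ j, ⨆ _ : j < k, U ⊓ f.eigenspace (g j)).map (f - g k • 1) :=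
      iSup₂_le fun j hj x hx => by
        have hne : g j - g k ≠ 0 := sub_ne_zero.2 fun e => hj.ne (hg e)
        refine ⟨(g j - g k)⁻¹ • x, Submodule.smul_mem _ _
          (Submodule.mem_iSup_of_mem j (Submodule.mem_iSup_of_mem hj hx)), ?_⟩
        have := Module.End.mem_eigenspace_iff.1 hx.2
        simp only [map_smul, LinearMap.sub_apply, LinearMap.smul_apply, Module.End.one_apply, this,
          ← sub_smul, smul_smul, inv_mul_cancel₀ hne, one_smul]
    obtain ⟨e, he, he'⟩ := h2 h1
    have h3 : (⨆ j, ⨆ _ : j < k, U ⊓ f.eigenspace (g j)) ≤ U := iSup₂_le fun _ _ => inf_le_left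
    have h4 : (⨆ j, ⨆ _ : j < k, U ⊓ f.eigenspace (g j)) ≤
        ⨆ j, ⨆ _ : j < k + 1, U ⊓ f.eigenspace (g j) :=
      iSup₂_le fun j hj => le_iSup₂_of_le (f := fun j (_ : j < k + 1) => U ⊓ f.eigenspace (g j))
        j (by omega) le_rfl
    rw [← add_sub_cancel e w]
    refine Submodule.add_mem _ (h4 he) (Submodule.mem_iSup_of_mem k
      (Submodule.mem_iSup_of_mem (Nat.lt_succ_self k) ⟨U.sub_mem hw (h3 he), ?_⟩))
    simp only [LinearMap.sub_apply, LinearMap.smul_apply, Module.End.one_apply] at he'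
    refine Module.End.mem_eigenspace_iff.2 ?_
    rw [map_sub, smul_sub, sub_eq_sub_iff_sub_eq_sub, he']

theorem diagz' (f : Module.End ℚ V) (U : Submodule ℚ V) (hU : ∀ w ∈ U, f w ∈ U) {g : ℕ → ℚ}
    (hg : Function.Injective g) {k : ℕ} (h : ∀ w ∈ U, aeval f (pr g k) w = 0) {W : Submodule ℚ V}
    (hW : ∀ j, ∀ x ∈ U, f x = g j • x → x ∈ W) : U ≤ W := fun w hw =>
  (iSup₂_le fun j _ x hx => hW j x hx.1 (Module.End.mem_eigenspace_iff.1 hx.2) :
    (⨆ j, ⨆ _ : j < k, U ⊓ f.eigenspace (g j)) ≤ W) (diagz f U hU hg k w hw (h w hw))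

/-- Two of the three relations of a triple, with `A` nilpotent. -/
structure Half (A B H : Module.End ℚ V) : Prop where
  h1 : A * B - B * A = H
  h2 : H * A - A * H = (2 : ℚ) • A
  nil : IsNilpotent A

namespace Half

variable {A B H : Module.End ℚ V}

theorem comm (h : Half A B H) (v : V) : A (H v) = H (A v) - (2 : ℚ) • A v := by
  have := LinearMap.congr_fun h.h2 v
  simp only [LinearMap.sub_apply, Module.End.mul_apply, LinearMap.smul_apply] at this
  rw [← this]; abel

theorem jac (h : Half A B H) (i : ℕ) (v : V) :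
    (A ^ (i + 1)) (B v) - B ((A ^ (i + 1)) v) =
      ((i : ℚ) + 1) • (H ((A ^ i) v) - (i : ℚ) • (A ^ i) v) := by
  have := LinearMap.congr_fun (H88.jac (e := 1) h.h1 (by simpa using h.h2) i) v
  simpa using this

theorem pow_comm (h : Half A B H) (i : ℕ) (v : V) :
    (A ^ i) (H v) = H ((A ^ i) v) - (2 * i : ℚ) • (A ^ i) v := by
  induction i with
  | zero => simp
  | succ i ih =>
    rw [pow_succ', Module.End.mul_apply, Module.End.mul_apply, ih, map_sub, map_smul, h.comm]
    push_cast
    module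

theorem ker_stable (h : Half A B H) {v : V} (hv : A v = 0) : A (H v) = 0 := by
  simp [h.comm, hv]

theorem kill (h : Half A B H) : ∃ N, ∀ v, A v = 0 → aeval H (pr (fun j => (j : ℚ)) N) v = 0 := by
  obtain ⟨N, hN⟩ := h.nil
  refine ⟨N, fun v hv => ?_⟩
  have key : ∀ i, A (aeval H (pr (fun j => (j : ℚ)) i) v) = 0 ∧
      ∃ u, aeval H (pr (fun j => (j : ℚ)) i) v = (A ^ i) u := by
    intro i
    induction i with
    | zero => exact ⟨by simpa [pr] using hv, v, by simp [pr]⟩
    | succ i ih =>
      obtain ⟨h1, u, h2⟩ := ih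
      rw [pr_succ']
      refine ⟨by rw [map_sub, map_smul, h.ker_stable h1, h1]; simp, ((i : ℚ) + 1)⁻¹ • B u, ?_⟩
      have h3 : (A ^ (i + 1)) u = 0 := by rw [pow_succ', Module.End.mul_apply, ← h2, h1]
      have h4 := h.jac i u
      rw [h3, map_zero, sub_zero] at h4
      rw [map_smul, h4, smul_smul, inv_mul_cancel₀ (by positivity), one_smul, h2]
  obtain ⟨u, hu⟩ := (key N).2
  simp [hu, hN]

theorem eq_zero_of_neg (h : Half A B H) {v : V} {c : ℚ} (hv : A v = 0) (hc : H v = c • v)
    (h0 : c < 0) : v = 0 := by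
  obtain ⟨N, hN⟩ := h.kill
  by_contra hne
  have h1 := hN v hv
  rw [Module.End.aeval_apply_of_hasEigenvector ⟨Module.End.mem_eigenspace_iff.2 hc, hne⟩,
    smul_eq_zero] at h1
  refine hne (h1.resolve_left ?_)
  rw [pr, eval_prod]
  refine Finset.prod_ne_zero_iff.2 fun j _ => ?_
  have : (0 : ℚ) ≤ j := by positivity
  simp only [eval_sub, eval_X, eval_C]
  exact (by linarith : c - j < 0).ne

theorem ker_le (h : Half A B H) {W : Submodule ℚ V}
    (hW : ∀ (j : ℕ) x, H x = (j : ℚ) • x → x ∈ W) : LinearMap.ker A ≤ W := by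
  obtain ⟨N, hN⟩ := h.kill
  exact diagz' H _ (fun w hw => h.ker_stable hw) Nat.cast_injective hN fun j x _ hx => hW j x hx

theorem disj (h : Half A B H) (h3 : H * B - B * H = (-2 : ℚ) • B) :
    Disjoint (LinearMap.ker A) (LinearMap.range B) := by
  have hB : ∀ v, H (B v) = B (H v) - (2 : ℚ) • B v := fun v => by
    have := LinearMap.congr_fun h3 v
    simp only [LinearMap.sub_apply, Module.End.mul_apply, LinearMap.smul_apply] at this
    rw [sub_eq_iff_eq_add.1 this]; module
  have hU : ∀ w ∈ LinearMap.ker (A * B), H w ∈ LinearMap.ker (A * B) := fun w hw => by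
    have h1 : A (B w) = 0 := hw
    have h2 := h.ker_stable h1
    rw [hB, map_sub, map_smul, h1, smul_zero, sub_zero] at h2
    exact h2
  obtain ⟨N, hN⟩ := h.nil
  have key : ∀ k, ∀ w ∈ LinearMap.ker (A * B), (A ^ k) w = 0 →
      aeval H (pr (fun j => -(j : ℚ)) k) w = 0 := by
    intro k
    induction k with
    | zero => intro w _ h1; simpa [pr] using h1
    | succ k ih =>
      intro w hw h1
      rw [pr_succ]
      refine ih _ (Submodule.sub_mem _ (hU w hw) (Submodule.smul_mem _ _ hw)) ?_
      have h2 := h.jac k w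
      have h4 : A (B w) = 0 := hw
      rw [h1, pow_succ, Module.End.mul_apply, h4, map_zero, map_zero, sub_zero, eq_comm,
        smul_eq_zero] at h2
      have h5 := sub_eq_zero.1 (h2.resolve_left (by positivity))
      rw [map_sub, map_smul, h.pow_comm, h5]
      module
  have h5 : LinearMap.ker (A * B) ≤ LinearMap.ker B :=
    diagz' H _ hU (g := fun j => -(j : ℚ)) (fun a b e => Nat.cast_injective (neg_injective e))
      (fun w hw => key N w hw (by simp [hN])) fun j x hx e => by
        refine h.eq_zero_of_neg (c := -(j : ℚ) - 2) hx ?_ ?_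
        · rw [hB, e, map_smul]; module
        · have : (0 : ℚ) ≤ j := by positivity
          linarith
  refine Submodule.disjoint_def.2 ?_
  rintro _ hx ⟨w, rfl⟩
  exact h5 hx

end Half

/-- A triple of operators with both `A` and `B` nilpotent. -/
structure Full (A B H : Module.End ℚ V) : Prop extends Half A B H where
  h3 : H * B - B * H = (-2 : ℚ) • B
  nil' : IsNilpotent B

namespace Full

variable {A B H : Module.End ℚ V}

theorem symm (h : Full A B H) : Full B A (-H) where
  h1 := by rw [← h.h1]; abel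
  h2 := by rw [neg_mul, mul_neg, ← neg_sub', h.h3]; module
  nil := h.nil'
  h3 := by rw [neg_mul, mul_neg, ← neg_sub', h.h2]; module
  nil' := h.nil

theorem sup_eq [Module.Finite ℚ V] (h : Full A B H) :
    LinearMap.ker A ⊔ LinearMap.range B = ⊤ := by
  have h1 := h.toHalf.disj h.h3
  have h2 := h.symm.toHalf.disj h.symm.h3
  have e1 := Submodule.finrank_sup_add_finrank_inf_eq (LinearMap.ker A) (LinearMap.range B)
  have e2 := Submodule.finrank_sup_add_finrank_inf_eq (LinearMap.ker B) (LinearMap.range A)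
  rw [h1.eq_bot, finrank_bot] at e1
  rw [h2.eq_bot, finrank_bot] at e2
  have e3 := LinearMap.finrank_range_add_finrank_ker A
  have e4 := LinearMap.finrank_range_add_finrank_ker B
  have e5 := Submodule.finrank_le (LinearMap.ker A ⊔ LinearMap.range B)
  have e6 := Submodule.finrank_le (LinearMap.ker B ⊔ LinearMap.range A)
  exact Submodule.eq_top_of_finrank_eq (by omega)

/-- The space is spanned by eigenvectors of `H` with integer eigenvalues. -/
theorem eq_top [Module.Finite ℚ V] (h : Full A B H) {W : Submodule ℚ V}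
    (hW : ∀ (j : ℤ) x, H x = (j : ℚ) • x → x ∈ W) : W = ⊤ := by
  have hB : ∀ v, H (B v) = B (H v) - (2 : ℚ) • B v := fun v => by
    have := LinearMap.congr_fun h.h3 v
    simp only [LinearMap.sub_apply, Module.End.mul_apply, LinearMap.smul_apply] at this
    rw [sub_eq_iff_eq_add.1 this]; module
  let M : Submodule ℚ V := ⨆ j : ℤ, H.eigenspace j
  have hM : M ≤ W := iSup_le fun j x hx => hW j x (Module.End.mem_eigenspace_iff.1 hx)
  have h1 : LinearMap.ker A ≤ M := h.toHalf.ker_le fun j x hx =>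
    Submodule.mem_iSup_of_mem (j : ℤ) (Module.End.mem_eigenspace_iff.2 (by simpa using hx))
  have h2 : M ≤ M.comap B := iSup_le fun j x hx =>
    Submodule.mem_iSup_of_mem (j - 2) (Module.End.mem_eigenspace_iff.2 (by
      rw [hB, Module.End.mem_eigenspace_iff.1 hx, map_smul]
      push_cast
      module))
  have key : ∀ k v, ∃ m ∈ M, ∃ u, v = m + (B ^ k) u := by
    intro k
    induction k with
    | zero => exact fun v => ⟨0, M.zero_mem, v, by simp⟩
    | succ k ih =>
      intro v
      obtain ⟨a, ha, _, ⟨u, rfl⟩, e⟩ := Submodule.mem_sup.1 (h.sup_eq ▸ Submodule.mem_top (x := v))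
      obtain ⟨m, hm, w, rfl⟩ := ih u
      refine ⟨a + B m, M.add_mem (h1 ha) (h2 hm), w, ?_⟩
      rw [← e, pow_succ', Module.End.mul_apply, map_add, add_assoc]
  obtain ⟨N, hN⟩ := h.nil'
  refine top_le_iff.1 fun v _ => hM ?_
  obtain ⟨m, hm, u, rfl⟩ := key N v
  simpa [hN] using hm

end Full

end Pool.Agent.MP_2b113a_an.H88
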