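import Mathlib
import Pool.Agent.MP_2b113a_an.H33.LieC
import Pool.Agent.MP_2b113a_an.H88.Sl2

/-!
The graded Jacobson-Morozov theorem for a maximal split torus.
-/

namespace Pool.Agent.MP_2b113a_an.H88

open Pool.Agent.MP_2b113a_an.H33

variable {L : Type} [LieRing L] [LieAlgebra ℚ L] [Module.Finite ℚ L]

/-- A weight vector in the range of a homogeneous map is the image of a weight vector. -/
theorem proj (τ : Tor L) {f : Module.End ℚ L} {α β : Module.Dual ℚ τ.S}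
    (hf : ∀ (s : τ.S) z, ⁅(s : L), f z⁆ = f ⁅(s : L), z⁆ + α s • f z) {z : L}
    (hz : f z ∈ τ.wt β) : ∃ z' ∈ τ.wt (β - α), f z' = f z := by
  have h1 : (τ.wt β).comap f ≤ τ.wt (β - α) ⊔ LinearMap.ker f := by
    refine τ.le_of_stable (fun s y hy => ?_) fun γ x hx hγ => ?_
    · have e : f ⁅(s : L), y⁆ = (β s - α s) • f y := by
        rw [sub_smul, ← τ.mem_wt.1 hy s, hf, add_sub_cancel_right]
      rw [Submodule.mem_comap, e]
      exact Submodule.smul_mem _ _ hy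
    · by_cases e : γ = β - α
      · exact Submodule.mem_sup_left (e ▸ hγ)
      · refine Submodule.mem_sup_right (τ.eq_zero_of_mem_wt (γ := γ + α) hx (τ.mem_wt.2 fun s => ?_)
          fun e' => e (by rw [e']; abel))
        rw [hf, τ.mem_wt.1 hγ s, map_smul, LinearMap.add_apply, add_smul]
  obtain ⟨a, ha, b, hb, rfl⟩ := Submodule.mem_sup.1 (h1 hz)
  exact ⟨a, ha, by rw [map_add, LinearMap.mem_ker.1 hb, add_zero]⟩

omit [Module.Finite ℚ L] in
theorem ad_hom (τ : Tor L) {α : Module.Dual ℚ τ.S} {X : L} (hX : X ∈ τ.wt α) (s : τ.S) (z : L) :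
    ⁅(s : L), ad X z⁆ = ad X ⁅(s : L), z⁆ + α s • ad X z := by
  simp only [ad_apply]
  rw [leibniz_lie, τ.mem_wt.1 hX s, smul_lie, add_comm]

theorem proj_lie (τ : Tor L) {α β : Module.Dual ℚ τ.S} {X y z : L} (hX : X ∈ τ.wt α)
    (hy : y ∈ τ.wt β) (h : ⁅X, z⁆ = y) : ∃ z' ∈ τ.wt (β - α), ⁅X, z'⁆ = y := by
  subst h
  exact proj τ (ad_hom τ hX) hy

omit [Module.Finite ℚ L] in
theorem kil_zero {x y : L} (hx : Nil x) (h : ⁅x, y⁆ = 0) : kil x y = 0 :=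
  (LinearMap.isNilpotent_trace_of_isNilpotent ((commute_ad h).isNilpotent_mul_right hx)).eq_zero

theorem mem_range [LieAlgebra.IsSimple ℚ L] {f : Module.End ℚ L}
    (hf : ∀ x y, kil (f x) y = kil x (f y)) {x : L} (h : ∀ z, f z = 0 → kil z x = 0) :
    x ∈ LinearMap.range f := by
  rw [← LinearMap.BilinForm.orthogonal_orthogonal (B := killingForm ℚ L)
    (LieAlgebra.IsKilling.killingForm_nondegenerate ℚ L) (fun a b e => (kil_comm b a).trans e)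
    (LinearMap.range f)]
  refine fun z hz => h z (eq_zero_of_kil fun y => ?_)
  rw [kil_comm, ← hf]
  exact hz (f y) ⟨y, rfl⟩

/-- The first half of the theorem. -/
theorem exists_half [LieAlgebra.IsSimple ℚ L] (τ : Tor L) {α : Module.Dual ℚ τ.S} {X : L}
    (hX : X ∈ τ.wt α) (hα : α ≠ 0) : ∃ y ∈ τ.wt (-α), ⁅⁅X, y⁆, X⁆ = (2 : ℚ) • X := by
  have hf : ∀ (s : τ.S) z, ⁅(s : L), (ad X * ad X) z⁆ =
      (ad X * ad X) ⁅(s : L), z⁆ + (α + α) s • (ad X * ad X) z := fun s z => by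
    simp only [Module.End.mul_apply]
    rw [ad_hom τ hX, ad_hom τ hX, map_add, map_smul, LinearMap.add_apply, add_smul, add_assoc]
  have h1 : LinearMap.ker (ad X * ad X) ≤ LinearMap.ker (killingForm ℚ L X) := by
    refine τ.le_of_stable (fun s y hy => ?_) fun γ z hz hγ => ?_
    · have := hf s y
      rw [LinearMap.mem_ker.1 hy, lie_zero, smul_zero, add_zero] at this
      exact this.symm
    · by_cases e : γ = -α
      · subst e
        have h2 : ⁅X, ⁅X, z⁆⁆ = 0 := hz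
        have h3 : Nil ⁅X, z⁆ :=
          nil_comm (τ.nil_of_mem_wt hα hX) (ad_lie X z).symm (commute_ad h2).symm.eq
        obtain ⟨s, hs⟩ := DFunLike.ne_iff.1 hα
        have h4 : ⁅⁅X, z⁆, (s : L)⁆ = 0 := by
          have := τ.mem_wt.1 (τ.lie_mem_wt hX hγ) s
          rw [← lie_skew, this]
          simp
        have h5 := kil_zero h3 h4
        rw [kil_lie, ← lie_skew, τ.mem_wt.1 hγ s] at h5
        simp only [kil, LinearMap.neg_apply, neg_smul, neg_neg, map_smul, smul_eq_mul] at h5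
        exact (mul_eq_zero.1 h5).resolve_left hs
      · exact τ.kil_wt hX hγ fun h0 => e (eq_neg_of_add_eq_zero_right h0)
  obtain ⟨u, hu⟩ : X ∈ LinearMap.range (ad X * ad X) :=
    mem_range (fun x y => by simp only [Module.End.mul_apply, ad_apply, kil_lie', neg_neg])
      fun z hz => (kil_comm z X).trans (h1 hz)
  obtain ⟨y, hy, e⟩ := proj τ hf (β := α) (z := u) (by rw [hu]; exact hX)
  rw [hu] at e
  have e' : ⁅X, ⁅X, y⁆⁆ = X := e
  refine ⟨(-2 : ℚ) • y, Submodule.smul_mem _ _ (by simpa using hy), ?_⟩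
  rw [← lie_skew, lie_smul, lie_smul, e']
  module

omit [Module.Finite ℚ L] in
theorem half_ad {X y : L} (hX : Nil X) (h : ⁅⁅X, y⁆, X⁆ = (2 : ℚ) • X) :
    Half (ad X) (ad y) (ad ⁅X, y⁆) :=
  ⟨(ad_lie X y).symm, by rw [← ad_lie, h, ad_smul], hX⟩

/-- The second half of the theorem. -/
theorem exists_full [LieAlgebra.IsSimple ℚ L] (τ : Tor L) {α : Module.Dual ℚ τ.S} {X : L}
    (hX : X ∈ τ.wt α) (hα : α ≠ 0) :
    ∃ Y ∈ τ.wt (-α), ⁅⁅X, Y⁆, X⁆ = (2 : ℚ) • X ∧ ⁅⁅X, Y⁆, Y⁆ = (-2 : ℚ) • Y := by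
  obtain ⟨y, hy, e⟩ := exists_half τ hX hα
  have hh := half_ad (τ.nil_of_mem_wt hα hX) e
  have h0 : ⁅X, y⁆ ∈ τ.wt 0 := by simpa using τ.lie_mem_wt hX hy
  let W : Submodule ℚ L := LinearMap.ker (ad X) ⊓ τ.wt (-α)
  let f : Module.End ℚ L := ad ⁅X, y⁆ + (2 : ℚ) • 1
  have hf : ∀ v, f v = ⁅⁅X, y⁆, v⁆ + (2 : ℚ) • v := fun v => rfl
  have hw : ∀ v ∈ τ.wt (-α), f v ∈ τ.wt (-α) := fun v hv => by
    rw [hf]
    exact Submodule.add_mem _ (by simpa using τ.lie_mem_wt h0 hv) (Submodule.smul_mem _ _ hv)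
  have hW : ∀ v ∈ W, f v ∈ W := fun v hv =>
    ⟨Submodule.add_mem _ (hh.ker_stable hv.1) (Submodule.smul_mem _ _ hv.1), hw v hv.2⟩
  have hinj : Function.Injective (f.restrict hW) := by
    rw [injective_iff_map_eq_zero]
    intro v hv
    have h1 : f v = 0 := congrArg Subtype.val hv
    refine Subtype.ext (hh.eq_zero_of_neg (c := -2) v.2.1 ?_ (by norm_num))
    rw [hf] at h1
    rw [ad_apply, eq_neg_of_add_eq_zero_left h1, neg_smul]
  have hy' : f y ∈ W := by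
    refine ⟨?_, hw y hy⟩
    show ⁅X, f y⁆ = 0
    rw [hf, lie_add, leibniz_lie, lie_self, add_zero, ← lie_skew X, e]
    simp
  obtain ⟨w, e'⟩ := LinearMap.surjective_of_injective hinj ⟨f y, hy'⟩
  have e1 : f w = f y := congrArg Subtype.val e'
  have e2 : ⁅X, y - w⁆ = ⁅X, y⁆ := by
    have : ⁅X, (w : L)⁆ = 0 := w.2.1
    rw [lie_sub, this, sub_zero]
  refine ⟨y - w, Submodule.sub_mem _ hy w.2.2, by rw [e2, e], ?_⟩
  have e3 : f (y - w) = 0 := by rw [map_sub, e1, sub_self]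
  rw [hf] at e3
  rw [e2, eq_neg_of_add_eq_zero_left e3, neg_smul]

theorem surj {H X Y y : L} {c : ℚ} (hH : Diag H) (h : Full (ad X) (ad Y) (ad H))
    (hX : ⁅H, X⁆ = (2 : ℚ) • X) (hY : ⁅H, Y⁆ = (-2 : ℚ) • Y) (hc : 0 < c) (hy : y ∈ eig H c) :
    ∃ z, ⁅X, z⁆ = y := by
  obtain ⟨a, ha, _, ⟨u, rfl⟩, e⟩ :=
    Submodule.mem_sup.1 (h.symm.sup_eq ▸ Submodule.mem_top (x := y))
  have h1 : prj H c a = 0 := by
    refine h.symm.toHalf.eq_zero_of_neg (c := -c) ?_ ?_ (by linarith)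
    · have := hH.prj_lie (mem_eig.2 hY) c a
      rw [show ⁅Y, a⁆ = 0 from ha, map_zero] at this
      exact this.symm
    · rw [LinearMap.neg_apply, ad_apply, mem_eig.1 (hH.prj_mem c a), neg_smul]
  refine ⟨prj H (c - 2) u, ?_⟩
  rw [← hH.prj_lie (mem_eig.2 hX), sub_add_cancel, ← prj_self hy, ← e, map_add, h1, zero_add,
    ad_apply]

theorem triple : TripleStmt := by
  intro L _ _ _ _ τ α X hX hX0 hα
  obtain ⟨Y, hY, e1, e2⟩ := exists_full τ hX hα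
  have hF : Full (ad X) (ad Y) (ad ⁅X, Y⁆) :=
    ⟨half_ad (τ.nil_of_mem_wt hα hX) e1, by rw [← ad_lie, e2, ad_smul],
      τ.nil_of_mem_wt (neg_ne_zero.2 hα) hY⟩
  have hD : Diag ⁅X, Y⁆ := hF.eq_top fun j x hx => Submodule.mem_iSup_of_mem (j : ℚ) (mem_eig.2 hx)
  have h0 : ⁅X, Y⁆ ∈ τ.wt 0 := by simpa using τ.lie_mem_wt hX hY
  have hS : ⁅X, Y⁆ ∈ τ.S := τ.max _ hD fun s hs => by simpa using τ.mem_wt.1 h0 ⟨s, hs⟩
  have hZ : fil ⁅X, Y⁆ (fun c => ∃ k : ℤ, c = k) = ⊤ :=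
    hF.eq_top fun j x hx => eig_le_fil ⟨j, rfl⟩ (mem_eig.2 hx)
  refine ⟨⟨_, hS⟩, Y, hY, ⟨fun h => hX0 ?_, rfl, ?_, ?_⟩, fun β hβ => ?_, fun β hβ y hy => ?_,
    fun β hβ y hy => ?_⟩
  · have h' : ⁅X, Y⁆ = 0 := h
    rw [h', zero_lie, eq_comm, smul_eq_zero] at e1
    exact e1.resolve_left two_ne_zero
  · show ⁅⁅X, Y⁆, X⁆ = _
    rw [e1, two_smul, two_smul]
  · show ⁅⁅X, Y⁆, Y⁆ = _
    rw [e2, neg_smul, two_smul, two_smul]
  · by_contra hk
    obtain ⟨x, hx, hx0⟩ := Submodule.exists_mem_ne_zero_of_ne_bot hβ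
    have h1 := τ.wt_le_eig β ⟨_, hS⟩ hx
    exact hx0 ((prj_self h1).symm.trans
      (prj_eq_zero_of_mem_fil (hZ ▸ Submodule.mem_top (x := x)) hk))
  · obtain ⟨z, hz⟩ := surj hD hF e1 e2 hβ (τ.wt_le_eig β ⟨_, hS⟩ hy)
    exact proj_lie τ hX hy hz
  · have hF' := hF.symm
    rw [← ad_neg] at hF'
    obtain ⟨z, hz⟩ := surj (c := -β ⟨_, hS⟩) (y := y) hD.neg hF' (by rw [neg_lie, e2]; module)
      (by rw [neg_lie, e1]; module) (by linarith)
      (by rw [eig_neg, neg_neg]; exact τ.wt_le_eig β ⟨_, hS⟩ hy)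
    simpa using proj_lie τ hY hy hz

end Pool.Agent.MP_2b113a_an.H88
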