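import Pool.Agent.MP_2b113a_an.H33.Defs

/-!
The real form of a rational simple Lie algebra in coordinates: bracket, extension of scalars,
and the fact that all derivations are inner.
-/

namespace Pool.Agent.MP_2b113a_an.H88

open Pool.Agent.MP_2b113a_an.H33
open scoped TensorProduct

variable {n : ℕ} {L : Type} [LieRing L] [LieAlgebra ℚ L] (b : Module.Basis (Fin n) ℚ L)

/-- Coordinates on the real form. -/
noncomputable def ph : (ℝ ⊗[ℚ] L) ≃ₗ[ℝ] (Fin n → ℝ) := (Algebra.TensorProduct.basis ℝ b).equivFun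

theorem ph_tmul (x : L) (i : Fin n) : ph b (1 ⊗ₜ x) i = (b.repr x i : ℚ) := by
  simp [ph, Algebra.TensorProduct.basis_repr_tmul]

theorem ph_symm (x : Fin n → ℝ) : (ph b).symm x = ∑ i, x i • ((1 : ℝ) ⊗ₜ[ℚ] b i) := by
  simp only [ph, Module.Basis.equivFun_symm_apply, Algebra.TensorProduct.basis_apply]

theorem brk_eq (x y : Fin n → ℝ) : brk b x y = ph b ⁅(ph b).symm x, (ph b).symm y⁆ := by
  funext k
  rw [ph_symm, ph_symm, sum_lie]
  simp only [lie_sum, smul_lie, lie_smul, map_sum, map_smul, Finset.sum_apply, Pi.smul_apply,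
    LieAlgebra.ExtendScalars.bracket_tmul, mul_one, ph_tmul, smul_eq_mul, brk]
  refine Finset.sum_congr rfl fun i _ => ?_
  exact Finset.sum_congr rfl fun j _ => by ring

/-- Extension of endomorphisms of the real form to coordinates. -/
noncomputable def cj : Module.End ℝ (ℝ ⊗[ℚ] L) ≃ₐ[ℝ] ((Fin n → ℝ) →L[ℝ] (Fin n → ℝ)) :=
  ((ph b).conjAlgEquiv ℝ).trans (Module.End.toContinuousLinearMap (𝕜 := ℝ) (Fin n → ℝ))

theorem cj_apply (T : Module.End ℝ (ℝ ⊗[ℚ] L)) (x : Fin n → ℝ) :
    cj b T x = ph b (T ((ph b).symm x)) := rfl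

/-- The bracket of the real form as a bilinear map. -/
noncomputable def adR : (ℝ ⊗[ℚ] L) →ₗ[ℝ] Module.End ℝ (ℝ ⊗[ℚ] L) :=
  LinearMap.mk₂ ℝ (fun u v => ⁅u, v⁆) add_lie smul_lie lie_add lie_smul

/-- The bracket as a continuous bilinear map. -/
noncomputable def brr : (Fin n → ℝ) →L[ℝ] (Fin n → ℝ) →L[ℝ] (Fin n → ℝ) :=
  LinearMap.toContinuousLinearMap ((cj b).toLinearEquiv.toLinearMap ∘ₗ
    adR ∘ₗ (ph b).symm.toLinearMap)

theorem brr_apply' (x y : Fin n → ℝ) : brr b x y = ph b ⁅(ph b).symm x, (ph b).symm y⁆ := rfl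

theorem brr_apply (x y : Fin n → ℝ) : brr b x y = brk b x y := (brk_eq b x y).symm

/-- The inclusion of the rational points. -/
noncomputable def jj : L →+ (Fin n → ℝ) :=
  (ph b).toLinearMap.toAddMonoidHom.comp (TensorProduct.mk ℚ ℝ L 1).toAddMonoidHom

theorem jj_apply (x : L) : jj b x = ph b (1 ⊗ₜ x) := rfl

theorem jj_smul (c : ℚ) (x : L) : jj b (c • x) = (c : ℝ) • jj b x := by
  funext i
  rw [Pi.smul_apply, jj_apply, jj_apply, ph_tmul, ph_tmul]
  simp

/-- Extension of scalars for endomorphisms. -/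
noncomputable def extt : Module.End ℚ L →+* ((Fin n → ℝ) →L[ℝ] (Fin n → ℝ)) :=
  (cj b).toRingEquiv.toRingHom.comp (Module.End.baseChangeHom ℚ ℝ L).toRingHom

theorem extt_apply (T : Module.End ℚ L) (x : Fin n → ℝ) :
    extt b T x = ph b (T.baseChange ℝ ((ph b).symm x)) := rfl

theorem extt_jj (T : Module.End ℚ L) (x : L) : extt b T (jj b x) = jj b (T x) := by
  rw [extt_apply, jj_apply, jj_apply, LinearEquiv.symm_apply_apply, LinearMap.baseChange_tmul]

theorem brr_jj (x : L) : brr b (jj b x) = extt b (ad x) := by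
  ext1 y
  rw [brr_apply', extt_apply, jj_apply, LinearEquiv.symm_apply_apply]
  congr 1
  exact LinearMap.congr_fun (LieModule.toEnd_baseChange ℚ ℝ L L x) _

theorem span_jj : Submodule.span ℝ (Set.range (jj b)) = ⊤ := by
  rw [eq_top_iff]
  intro x _
  rw [← (ph b).apply_symm_apply x, ph_symm, map_sum]
  refine Submodule.sum_mem _ fun i _ => ?_
  rw [map_smul]
  exact Submodule.smul_mem _ _ (Submodule.subset_span ⟨b i, rfl⟩)

theorem indep_jj (k : ℕ) (v : Fin k → L) (h : LinearIndependent ℚ v) :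
    LinearIndependent ℝ fun i => jj b (v i) :=
  (Module.Flat.linearIndependent_one_tmul (S := ℝ) h).map' (ph b).toLinearMap (ph b).ker

theorem brr_jacobi (x y z : Fin n → ℝ) :
    brr b x (brr b y z) = brr b (brr b x y) z + brr b y (brr b x z) := by
  simp only [brr_apply', LinearEquiv.symm_apply_apply]
  rw [leibniz_lie, map_add]

include b in
theorem killing [LieAlgebra.IsSimple ℚ L] : LieAlgebra.IsKilling ℝ (ℝ ⊗[ℚ] L) := by
  have : Module.Finite ℚ L := Module.Finite.of_basis b
  have h1 := LieAlgebra.IsKilling.killingForm_nondegenerate ℚ L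
  rw [LinearMap.BilinForm.nondegenerate_iff_det_ne_zero b] at h1
  have h2 : (killingForm ℝ (ℝ ⊗[ℚ] L)).Nondegenerate := by
    rw [LinearMap.BilinForm.nondegenerate_iff_det_ne_zero (Algebra.TensorProduct.basis ℝ b)]
    have e : LinearMap.BilinForm.toMatrix (Algebra.TensorProduct.basis ℝ b)
        (killingForm ℝ (ℝ ⊗[ℚ] L)) =
        (algebraMap ℚ ℝ).mapMatrix (LinearMap.BilinForm.toMatrix b (killingForm ℚ L)) := by
      ext i j
      simp [killingForm, Algebra.TensorProduct.basis_apply]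
    rw [e, ← RingHom.map_det]
    simpa using h1
  constructor
  rw [eq_bot_iff]
  intro x hx
  rw [LieIdeal.mem_killingCompl] at hx
  exact h2.2 x fun y => hx y trivial

theorem brr_inj [LieAlgebra.IsSimple ℚ L] : Function.Injective (brr b) := by
  have : Module.Finite ℚ L := Module.Finite.of_basis b
  have := killing b
  rw [injective_iff_map_eq_zero]
  intro x hx
  have h : (ph b).symm x ∈ LinearMap.ker (killingForm ℝ (ℝ ⊗[ℚ] L)) := by
    have e : LieAlgebra.ad ℝ (ℝ ⊗[ℚ] L) ((ph b).symm x) = 0 :=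
      (map_eq_zero_iff (cj b) (cj b).injective (x := adR ((ph b).symm x))).mp hx
    rw [LinearMap.mem_ker]
    refine LinearMap.ext fun y => ?_
    rw [killingForm_apply_apply, e]
    simp
  rw [LieAlgebra.IsKilling.ker_killingForm_eq_bot, Submodule.mem_bot] at h
  exact (ph b).symm.map_eq_zero_iff.mp h

theorem brr_inner [LieAlgebra.IsSimple ℚ L] (D : (Fin n → ℝ) →L[ℝ] (Fin n → ℝ))
    (hD : ∀ x y, D (brr b x y) = brr b (D x) y + brr b x (D y)) : ∃ z, D = brr b z := by
  have : Module.Finite ℚ L := Module.Finite.of_basis b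
  have := killing b
  let D' : LieDerivation ℝ (ℝ ⊗[ℚ] L) (ℝ ⊗[ℚ] L) :=
    { toLinearMap := (ph b).symm.toLinearMap ∘ₗ D.toLinearMap ∘ₗ (ph b).toLinearMap
      leibniz' := fun u v => by
        have h := hD (ph b u) (ph b v)
        simp only [brr_apply', LinearEquiv.symm_apply_apply] at h
        simp only [LinearMap.comp_apply, LinearEquiv.coe_coe, ContinuousLinearMap.coe_coe]
        rw [h, map_add, LinearEquiv.symm_apply_apply, LinearEquiv.symm_apply_apply,
          ← lie_skew ((ph b).symm (D (ph b u))) v]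
        abel }
  obtain ⟨w, hw⟩ := LieDerivation.IsKilling.exists_eq_ad D'
  refine ⟨ph b w, ?_⟩
  ext1 y
  have h := DFunLike.congr_fun hw ((ph b).symm y)
  rw [LieDerivation.ad_apply_apply] at h
  rw [brr_apply', LinearEquiv.symm_apply_apply, h]
  show D y = ph b ((ph b).symm (D (ph b ((ph b).symm y))))
  simp

end Pool.Agent.MP_2b113a_an.H88
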