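import Mathlib
import Pool.Agent.MP_2b113a_an.C3.Iface
import Pool.Agent.MP_2b113a_an.H46.Win

/-!
Lemmas in three-space for the window step: almost independence from a density bound, and the two
cases (wide or narrow Gaussian) of the rigidity theorem.
-/

namespace Pool.Agent.MP_2b113a_an.H88

open MeasureTheory ProbabilityTheory Filter Topology
open scoped ENNReal NNReal Real
open Pool.Agent.MP_2b113a_an.C3

lemma dep_of {β₁ : Measure ℝ} {β₂ : Measure (ℝ × ℝ)} [IsProbabilityMeasure β₁]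
    [IsProbabilityMeasure β₂]
    {x : T3 → ℝ≥0∞} (hx : Measurable x) {P : ℝ≥0∞} (hP : ∫⁻ u, x u ∂(β₁.prod β₂) = P)
    (h0 : P ≠ 0) (h1 : P ≠ ∞) {δ : ℝ} (hδ : 0 ≤ δ)
    (h : ∫⁻ u, x u - (∫⁻ b, x (u.1, b) ∂β₂) * (∫⁻ a, x (a, u.2) ∂β₁) / P ∂(β₁.prod β₂) ≤
      ENNReal.ofReal δ * P) :
    Dep ((β₁.prod β₂).withDensity fun u => x u / P) δ := by
  set p : ℝ → ℝ≥0∞ := fun a => ∫⁻ b, x (a, b) ∂β₂ with hp
  set q : ℝ × ℝ → ℝ≥0∞ := fun b => ∫⁻ a, x (a, b) ∂β₁ with hq
  have mp : Measurable p := by rw [hp]; fun_prop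
  have mq : Measurable q := by rw [hq]; fun_prop
  set μ := (β₁.prod β₂).withDensity fun u => x u / P with hμ
  have hl : ∀ f : T3 → ℝ≥0∞, Measurable f →
      ∫⁻ u, f u ∂μ = ∫⁻ u, x u / P * f u ∂(β₁.prod β₂) := fun f hf => by
    rw [hμ, lintegral_withDensity_eq_lintegral_mul _ (by fun_prop) hf]; rfl
  have : IsProbabilityMeasure μ := ⟨by
    rw [← lintegral_one, hl _ measurable_const]
    simp only [mul_one, div_eq_mul_inv]
    rw [lintegral_mul_const _ hx, hP, ENNReal.mul_inv_cancel h0 h1]⟩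
  have e1 : μ.map Prod.fst = β₁.withDensity fun a => p a / P := by
    refine Measure.ext_of_lintegral _ fun f hf => ?_
    rw [lintegral_map hf measurable_fst, hl _ (by fun_prop),
      lintegral_withDensity_eq_lintegral_mul _ (by fun_prop) hf, lintegral_prod _ (by fun_prop)]
    refine lintegral_congr fun a => ?_
    simp only [div_eq_mul_inv, mul_assoc, Pi.mul_apply]
    rw [lintegral_mul_const _ (by fun_prop)]
  have e2 : μ.map Prod.snd = β₂.withDensity fun b => q b / P := by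
    refine Measure.ext_of_lintegral _ fun f hf => ?_
    rw [lintegral_map hf measurable_snd, hl _ (by fun_prop),
      lintegral_withDensity_eq_lintegral_mul _ (by fun_prop) hf,
      lintegral_prod_symm _ (by fun_prop)]
    refine lintegral_congr fun b => ?_
    simp only [div_eq_mul_inv, mul_assoc, Pi.mul_apply]
    rw [lintegral_mul_const _ (by fun_prop)]
  have : IsProbabilityMeasure (μ.map Prod.fst) :=
    Measure.isProbabilityMeasure_map measurable_fst.aemeasurable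
  have : IsProbabilityMeasure (μ.map Prod.snd) :=
    Measure.isProbabilityMeasure_map measurable_snd.aemeasurable
  intro g₁ g₂ m₁ m₂ b₁ b₂
  have e3 : (∫ u, g₁ u.1 ∂μ) * ∫ u, g₂ u.2 ∂μ =
      ∫ u, g₁ u.1 * g₂ u.2 ∂((μ.map Prod.fst).prod (μ.map Prod.snd)) := by
    rw [integral_prod_mul, integral_map measurable_fst.aemeasurable m₁.aestronglyMeasurable,
      integral_map measurable_snd.aemeasurable m₂.aestronglyMeasurable]
  rw [e3]
  refine H46.abs_integral_sub_le hδ (fun f hf hf1 => ?_) (by fun_prop) fun u =>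
    ⟨mul_nonneg (b₁ _).1 (b₂ _).1, mul_le_one₀ (b₁ _).2 (b₂ _).1 (b₂ _).2⟩
  rw [e1, e2, prod_withDensity (by fun_prop) (by fun_prop), hl _ hf,
    lintegral_withDensity_eq_lintegral_mul _ (by fun_prop) hf]
  have h2 : ∫⁻ u, (x u - p u.1 * q u.2 / P) * P⁻¹ ∂(β₁.prod β₂) ≤ ENNReal.ofReal δ := by
    rw [lintegral_mul_const _ (by fun_prop)]
    refine (mul_le_mul_left h _).trans (le_of_eq ?_)
    rw [mul_assoc, ENNReal.mul_inv_cancel h0 h1, mul_one]
  refine le_trans ?_ (add_le_add_right h2 _)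
  rw [← lintegral_add_right _ (by fun_prop)]
  refine lintegral_mono fun u => ?_
  simp only [Pi.mul_apply, div_eq_mul_inv]
  calc x u * P⁻¹ * f u ≤ (p u.1 * q u.2 * P⁻¹ + (x u - p u.1 * q u.2 * P⁻¹)) * P⁻¹ * f u := by
        gcongr; exact le_add_tsub
    _ = p u.1 * P⁻¹ * (q u.2 * P⁻¹) * f u + (x u - p u.1 * q u.2 * P⁻¹) * P⁻¹ * f u := by ring
    _ ≤ _ := add_le_add_right ((mul_le_mul_right (hf1 u) _).trans (mul_one _).le) _

/-- The conclusion of the rigidity theorem. -/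
def Near (ν : Measure T3) (lo : ℝ≥0) (m : T3) (v e : ℝ≥0) : Prop :=
  ∀ φ : T3 → ℝ≥0∞, Measurable φ → (∀ u, φ u ≤ 1) →
    ∫⁻ z, ∫⁻ ζ, φ (z + ζ) ∂(N3 lo lo lo) ∂ν ≤ ∫⁻ u, φ u ∂G3 m v v v + e

/-- The conclusion of the rigidity theorem in another orthogonal frame. -/
lemma Near.map {ν : Measure T3} {lo v e : ℝ≥0} {m : T3} (h : Near ν lo m v e) (hv : v ≠ 0)
    {R : T3 ≃ₗ[ℝ] T3} (hR : Orth R) : Near (ν.map R) lo (R m) v e := by
  intro φ hφ h1
  rw [lintegral_map (by fun_prop) (by fun_prop), ← hR.lintegral_G3 m hv hφ]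
  refine le_trans (le_of_eq (lintegral_congr fun z => ?_))
    (h (fun u => φ (R u)) (by fun_prop) fun u => h1 _)
  rw [← hR.lintegral_N3 lo (f := fun ζ => φ (R z + ζ)) (by fun_prop)]
  simp only [map_add]

/-- The wide case. -/
lemma Near.wide {ν : Measure T3} {lo v e : ℝ≥0} {m : T3} (h : Near ν lo m v e)
    (hv : v ≠ 0) (he : e ≤ 4⁻¹) {a b c A : ℝ≥0} (ha : 2 * lo ≤ a) (hb : 2 * lo ≤ b)
    (hc : 2 * lo ≤ c) (haA : a ≤ A) (hbA : b ≤ A) (hcA : c ≤ A)
    (hA : A ≤ e * v) {f : T3 → ℝ≥0∞} (hf : Measurable f) (hf1 : ∀ u, f u ≤ 1) :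
    ∫⁻ z, ∫⁻ q, f (z + q) ∂N3 (a - lo) (b - lo) (c - lo) ∂ν ≤
      (1 + 3 * e) * ∫⁻ u, f u ∂G3 m (v + A) (v + A) (v + A) + e := by
  obtain ⟨a', rfl⟩ := exists_add_of_le ha
  obtain ⟨b', rfl⟩ := exists_add_of_le hb
  obtain ⟨c', rfl⟩ := exists_add_of_le hc
  have ea : ∀ x : ℝ≥0, 2 * lo + x - lo = lo + x := fun x => by
    rw [two_mul, add_assoc, add_tsub_cancel_left]
  have h1 := h (fun u => ∫⁻ q, f (u + q) ∂N3 a' b' c') (by fun_prop) fun u =>
    (lintegral_mono fun q => hf1 _).trans (by simp)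
  have h2 : ∀ z : T3, ∫⁻ q, f (z + q) ∂N3 (lo + a') (lo + b') (lo + c') =
      ∫⁻ ζ, ∫⁻ q, f (z + ζ + q) ∂N3 a' b' c' ∂N3 lo lo lo := fun z => by
    rw [← lintegral_convN lo lo lo a' b' c' (f := fun q => f (z + q)) (by fun_prop)]
    simp only [add_assoc]
  rw [ea, ea, ea]
  simp_rw [h2]
  refine h1.trans (add_le_add_left ?_ _)
  rw [lintegral_conv3 m v v v a' b' c' hf]
  have r1 : ENNReal.ofReal ((1 + e) ^ 2) ≤ (1 + 3 * e : ℝ≥0∞) := by
    have : (1 + 3 * e : ℝ≥0∞) = ENNReal.ofReal (1 + 3 * e) := by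
      rw [ENNReal.ofReal_add zero_le_one (by positivity), ENNReal.ofReal_one,
        ENNReal.ofReal_mul (by norm_num), ENNReal.ofReal_coe_nnreal]
      simp
    rw [this]
    refine ENNReal.ofReal_le_ofReal ?_
    have a3 : (e : ℝ) ≤ 4⁻¹ := by exact_mod_cast he
    nlinarith [e.2]
  have hA' : (A : ℝ) ≤ e * v := by exact_mod_cast hA
  have ha1 : a' ≤ A := le_add_self.trans haA
  have hb1 : b' ≤ A := le_add_self.trans hbA
  have hc1 : c' ≤ A := le_add_self.trans hcA
  refine le_trans (lintegral_G3_le m (r := 1 + e) (by simp [hv]) (by simp [hv]) (by simp [hv])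
    (by gcongr) (by gcongr) (by gcongr) ?_ ?_ ?_ hf) (mul_le_mul_left r1 _)
  · push_cast
    nlinarith [a'.2, e.2, mul_nonneg e.2 a'.2]
  · push_cast
    nlinarith [b'.2, e.2, mul_nonneg e.2 b'.2]
  · push_cast
    nlinarith [c'.2, e.2, mul_nonneg e.2 c'.2]

lemma measurableSet_far (m : T3) (r : ℝ) : MeasurableSet {u : T3 | r < nsq (u - m)} :=
  measurableSet_lt measurable_const (by fun_prop)

lemma far_le (m a b : T3) {r : ℝ} (hr : 0 < r) :
    {u : T3 | 4 * r < nsq (u - m)}.indicator (1 : T3 → ℝ≥0∞) (a + b) ≤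
      {u : T3 | r < nsq (u - m)}.indicator 1 a +
        ENNReal.ofReal r⁻¹ * ENNReal.ofReal (nsq b) := by
  refine Set.indicator_apply_le' (fun h => ?_) fun _ => zero_le
  by_cases h1 : r < nsq (a - m)
  · rw [Set.indicator_of_mem (show a ∈ {u : T3 | r < nsq (u - m)} from h1)]
    exact le_self_add
  · refine le_add_left ?_
    have h2 : 4 * r < nsq (a + b - m) := h
    have h3 := nsq_add_le (a - m) b
    rw [show a - m + b = a + b - m by abel] at h3
    rw [← ENNReal.ofReal_mul (by positivity), Pi.one_apply, ENNReal.one_le_ofReal,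
      ← div_eq_inv_mul, le_div_iff₀ hr]
    linarith

lemma three_mul (x : ℝ≥0∞) : 3 * x = x + x + x := by ring

/-- The narrow case: the law is concentrated near the centre. -/
lemma Near.narrow {ν : Measure T3} [IsProbabilityMeasure ν] {lo v e : ℝ≥0} {m : T3}
    (h : Near ν lo m v e) {r : ℝ} (hr : 0 < r) :
    ∫⁻ u, {u : T3 | 4 * r < nsq (u - m)}.indicator 1 u ∂ν ≤
      ENNReal.ofReal r⁻¹ * (3 * v + 3 * lo) + e := by
  have mi : Measurable ({u : T3 | r < nsq (u - m)}.indicator (1 : T3 → ℝ≥0∞)) :=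
    measurable_one.indicator (measurableSet_far m r)
  have h1 := h _ mi fun u => Set.indicator_le_self' (fun _ _ => zero_le) u
  have h2 : ∫⁻ u, {u : T3 | r < nsq (u - m)}.indicator 1 u ∂G3 m v v v ≤
      ENNReal.ofReal r⁻¹ * (3 * v) := by
    rw [three_mul, ← lintegral_nsq_G3 m, ← lintegral_const_mul _ (by fun_prop)]
    refine lintegral_mono fun u => Set.indicator_apply_le' (fun hu => ?_) fun _ => zero_le
    have h2 : r < nsq (u - m) := hu
    rw [← ENNReal.ofReal_mul (by positivity), Pi.one_apply, ENNReal.one_le_ofReal,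
      ← div_eq_inv_mul, le_div_iff₀ hr]
    linarith
  have h3 : ∀ z : T3, {u : T3 | 4 * r < nsq (u - m)}.indicator (1 : T3 → ℝ≥0∞) z ≤
      ∫⁻ ζ, {u : T3 | r < nsq (u - m)}.indicator 1 (z + ζ) ∂N3 lo lo lo +
        ENNReal.ofReal r⁻¹ * (3 * lo) := fun z => by
    rw [three_mul, ← lintegral_nsq_N3, ← lintegral_const_mul _ (by fun_prop),
      ← lintegral_add_right _ (by fun_prop)]
    refine le_trans (le_of_eq (by simp)) (lintegral_mono
      (f := fun _ => {u : T3 | 4 * r < nsq (u - m)}.indicator (1 : T3 → ℝ≥0∞) z) fun ζ => ?_)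
    have := far_le m (z + ζ) (-ζ) hr
    rwa [add_neg_cancel_right, nsq_neg] at this
  refine (lintegral_mono h3).trans ?_
  rw [lintegral_add_right _ measurable_const, lintegral_const, measure_univ, mul_one]
  calc _ ≤ ENNReal.ofReal r⁻¹ * (3 * v) + e + ENNReal.ofReal r⁻¹ * (3 * lo) := by
        gcongr
        exact h1.trans (add_le_add_left h2 _)
    _ = _ := by ring

end Pool.Agent.MP_2b113a_an.H88
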